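import Pool.Agent.Work.MP_90e0ad_ag.GR.Final2

set_option autoImplicit false

open Pool.Agent.Work.MP_90e0ad_ag.GR

/-- Undecidability of the growth restricted forms of the question, for the fibres of one variety. -/
theorem Pool.Agent.Results.MP_90e0ad_ag.GrowthClasses.result :
    ∃ K : Set ℕ, (¬ REPred fun n : ℕ => n ∉ K) ∧
      (∃ (N : ℕ) (L G : List Pol), ∀ 𝒢 : Set (ℂ → ℂ),
        (∀ P : Polynomial ℤ, (fun z : ℂ => Polynomial.aeval z P) ∈ 𝒢) → 𝒢 ⊆ OrdLT1 →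
        (∀ n : ℕ, Hyp 𝒢 (N, eqW n :: L, G) ↔ n ∉ K) ∧ ¬ REPred fun I : Input => Hyp 𝒢 I) ∧
      (∃ (N : ℕ) (L G : List Pol) (p : List ℤ), ∀ 𝒢 : Set (ℂ → ℂ),
        (∀ P Q : Polynomial ℂ,
          (fun z : ℂ => P.eval (Complex.exp z) + Q.eval (Complex.exp (-z))) ∈ 𝒢) → 𝒢 ⊆ FinOrd →
        (∀ n : ℕ, HypAt 𝒢 ((N, eqW n :: L, G), (n : ℤ) :: p) ↔ n ∉ K) ∧
          ¬ REPred fun I : Input × List ℤ => HypAt 𝒢 I) :=
  final
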