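import Mathlib
import Pool.Agent.Work.MP_90e0ad_ag.Main

/-!
MP_90e0ad_ag: hyperbolicity of all strata of a projective variety over Q with respect to
finitely many hypersurfaces (no hypersurfaces: hyperbolicity of projective varieties) is
semi-decidable.
-/

namespace Pool.Agent.Results.MP_90e0ad_ag.SemiDecidable

open Pool.Agent.Work.MP_90e0ad_ag

theorem result : REPred fun I : ℕ × List Form × List Form =>
    (∀ P ∈ I.2.1 ++ I.2.2, IsForm I.1 P) ∧
      ∀ T : Set Form, Hyperbolic I.1 (stratum I.1 I.2.1 I.2.2 T) :=
  allHyp_re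

end Pool.Agent.Results.MP_90e0ad_ag.SemiDecidable
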