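import Mathlib
import Pool.Agent.Work.MP_90e0ad_ag.Hs.MainH

/-!
MP_90e0ad_ag: the decision problem for hyperbolicity of quasi-projective (affine, projective)
varieties over Q is equivalent to its case of smooth hypersurfaces of arbitrarily large degree minus
a smooth linear section (minus a smooth hyperplane section, smooth hypersurfaces).
-/

namespace Pool.Agent.Results.MP_90e0ad_ag.SmoothHypersurfaces

open Pool.Agent.Work.MP_90e0ad_ag Pool.Agent.Work.MP_90e0ad_ag.Hs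

theorem result (D : ℕ → ℕ) (hD : Computable D) :
    (∃ r : ℕ × List Form × List Form → ℕ × ℕ × Form, Computable r ∧
      ∀ n L G, (∀ P ∈ L ++ G, IsForm n P) → ∀ m s f, r (n, L, G) = (m, s, f) →
        Good D m s f ∧
        (Hyperbolic n (Locus n L \ Locus n G) ↔ Hyperbolic m (Locus m [f] \ Lam m s))) ∧
    (∃ r : ℕ × List Form → ℕ × Form, Computable r ∧
      ∀ n L, (∀ P ∈ L, IsForm n P) → ∀ m f, r (n, L) = (m, f) →
        Good D m 1 f ∧
        (Hyperbolic n (Locus n L \ Lam n 1) ↔ Hyperbolic m (Locus m [f] \ Lam m 1))) ∧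
    (∃ r : ℕ × List Form → ℕ × Form, Computable r ∧
      ∀ n L, (∀ P ∈ L, IsForm n P) → ∀ m f, r (n, L) = (m, f) →
        Good D m 0 f ∧ (Hyperbolic n (Locus n L) ↔ Hyperbolic m (Locus m [f]))) ∧
    (Dec (fun I : ℕ × List Form × List Form => ∀ P ∈ I.2.1 ++ I.2.2, IsForm I.1 P)
        (fun I => Hyperbolic I.1 (Locus I.1 I.2.1 \ Locus I.1 I.2.2)) ↔
      Dec (fun x : ℕ × ℕ × Form => Good D x.1 x.2.1 x.2.2)
        (fun x => Hyperbolic x.1 (Locus x.1 [x.2.2] \ Lam x.1 x.2.1))) ∧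
    (Dec (fun I : ℕ × List Form => ∀ P ∈ I.2, IsForm I.1 P)
        (fun I => Hyperbolic I.1 (Locus I.1 I.2 \ Lam I.1 1)) ↔
      Dec (fun x : ℕ × Form => Good D x.1 1 x.2)
        (fun x => Hyperbolic x.1 (Locus x.1 [x.2] \ Lam x.1 1))) ∧
    (Dec (fun I : ℕ × List Form => ∀ P ∈ I.2, IsForm I.1 P)
        (fun I => Hyperbolic I.1 (Locus I.1 I.2)) ↔
      Dec (fun x : ℕ × Form => Good D x.1 0 x.2)
        (fun x => Hyperbolic x.1 (Locus x.1 [x.2]))) :=
  mainH D hD

end Pool.Agent.Results.MP_90e0ad_ag.SmoothHypersurfaces
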